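import Pool.Agent.Y801.SC.Gen
import Pool.Agent.Results.MP_65d7a7_an.NoDerivation

set_option autoImplicit false

/-!
# Points without bounded point derivations form a dense `G_δ` for the norm of the evaluations

For every compact plane set `X` with empty interior. The points of `X` are compared by the norm of
the difference of the evaluations in the dual of `R(X)`. In particular every Gleason part and every
neighbourhood of every nonpeak point contain nonpeak points without bounded point derivations; near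
nonpeak points there are uncountably many of them. Every Swiss cheese has nonpeak points.
-/

open MeasureTheory Filter Topology Set Metric Polynomial

namespace Pool.Agent.Results.MP_65d7a7_an.DenseGdelta

/-- The set of (restrictions to `X` of) rational functions with poles off `X`. -/
def ratSet (X : Set ℂ) : Set C(X, ℂ) :=
  {g | ∃ p q : ℂ[X], (∀ z ∈ X, q.eval z ≠ 0) ∧ ∀ z : X, g z = p.eval (z : ℂ) / q.eval (z : ℂ)}

/-- `R(X)` for compact `X`: the closure in `C(X)` of the set of rational functions with poles off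
`X` (for compact `X` the topology of `C(X, ℂ)` is the one of uniform convergence). -/
def R (X : Set ℂ) : Set C(X, ℂ) := closure (ratSet X)

/-- `x` is a peak point for `R(X)`. -/
def IsPeakPoint (X : Set ℂ) (x : X) : Prop :=
  ∃ f ∈ R X, f x = 1 ∧ ∀ y : X, y ≠ x → ‖f y‖ < 1

/-- The values of `D` on `R(X)` form a bounded point derivation on `R(X)` at `x`. -/
structure IsBoundedPointDerivation (X : Set ℂ) (x : X) (D : C(X, ℂ) → ℂ) : Prop where
  add : ∀ f ∈ R X, ∀ g ∈ R X, D (f + g) = D f + D g
  smul : ∀ c : ℂ, ∀ f ∈ R X, D (c • f) = c * D f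
  mul : ∀ f ∈ R X, ∀ g ∈ R X, D (f * g) = f x * D g + g x * D f
  bound : ∃ K : ℝ, ∀ f ∈ R X, ∀ M : ℝ, (∀ z : X, ‖f z‖ ≤ M) → ‖D f‖ ≤ K * M

/-- Swiss cheeses: a closed disc minus a sequence of open discs whose closures are pairwise
disjoint and contained in the open disc, with summable radii, and with empty interior. -/
def IsSwissCheese (X : Set ℂ) : Prop :=
  ∃ (c : ℂ) (ρ : ℝ) (a : ℕ → ℂ) (r : ℕ → ℝ), 0 < ρ ∧ (∀ n, 0 < r n) ∧
    (∀ n, closedBall (a n) (r n) ⊆ ball c ρ) ∧
    (∀ m n, m ≠ n → Disjoint (closedBall (a m) (r m)) (closedBall (a n) (r n))) ∧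
    Summable r ∧ X = closedBall c ρ \ ⋃ n, ball (a n) (r n) ∧ interior X = ∅

/-- Every bounded point derivation on `R(X)` at `y` is zero. -/
def NoDerivationAt (X : Set ℂ) (y : X) : Prop :=
  ∀ D : C(X, ℂ) → ℂ, IsBoundedPointDerivation X y D → ∀ f ∈ R X, D f = 0

/-- The norm of the difference of the evaluations at `x` and `y`, in the dual of `R(X)`, is at most
`δ`. -/
def NormLe (X : Set ℂ) (δ : ℝ) (x y : X) : Prop :=
  ∀ f ∈ R X, (∀ z : X, ‖f z‖ ≤ 1) → ‖f x - f y‖ ≤ δ

/-- `U` is open for the norm of the evaluations. -/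
def NormOpen (X : Set ℂ) (U : Set X) : Prop :=
  ∀ y ∈ U, ∃ δ : ℝ, 0 < δ ∧ ∀ w : X, NormLe X δ y w → w ∈ U

/-- `U` is dense for the norm of the evaluations. -/
def NormDense (X : Set ℂ) (U : Set X) : Prop :=
  ∀ x : X, ∀ ε : ℝ, 0 < ε → ∃ y ∈ U, NormLe X ε x y

open Pool.Agent.H136R3

theorem ratSet_smul {X : Set ℂ} (c : ℂ) {g : C(X, ℂ)} (hg : g ∈ ratSet X) : c • g ∈ ratSet X := by
  obtain ⟨p, q, hq, h⟩ := hg
  refine ⟨C c * p, q, hq, fun z => ?_⟩
  rw [ContinuousMap.smul_apply, h z, eval_mul, eval_C, smul_eq_mul]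
  ring

theorem normLe_of_cl {X : Set ℂ} (hX : IsCompact X) {x y : X} {δ : ℝ} (h : Cl X δ x y) :
    NormLe X δ x y := by
  intro f hf hf1
  have h1 : ∀ ε : ℝ, 0 < ε → ‖f x - f y‖ ≤ δ + (|δ| + 2) * ε := by
    intro ε hε
    obtain ⟨g, hg, hgf⟩ := Deriv.approx hX hf hε
    have h2 := h g hg (1 + ε) (fun z hz => by
      have h3 : g z = f ⟨z, hz⟩ + (g z - f ⟨z, hz⟩) := by ring
      rw [h3]
      exact (norm_add_le _ _).trans (add_le_add (hf1 _) (hgf ⟨z, hz⟩)))
    have h4 : f x - f y = -(g x - f x) + (g x - g y) + (g y - f y) := by ring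
    rw [h4]
    have h5 : ‖-(g x - f x) + (g x - g y) + (g y - f y)‖ ≤ ε + δ * (1 + ε) + ε := by
      refine (norm_add_le _ _).trans (add_le_add ?_ (hgf y))
      refine (norm_add_le _ _).trans (add_le_add ?_ h2)
      rw [norm_neg]
      exact hgf x
    have h6 : δ * ε ≤ |δ| * ε := mul_le_mul_of_nonneg_right (le_abs_self δ) hε.le
    linarith
  apply le_of_forall_pos_le_add
  intro ε hε
  have h2 := h1 (ε / (|δ| + 2)) (by positivity)
  rw [mul_div_cancel₀ _ (by positivity)] at h2
  exact h2

theorem cl_of_normLe {X : Set ℂ} {x y : X} {δ : ℝ} (h : NormLe X δ x y) : Cl X δ x y := by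
  intro f hf M hM
  have hM0 : 0 ≤ M := (norm_nonneg _).trans (hM x x.2)
  rcases hM0.eq_or_lt with h0 | h0
  · have h1 : f x = 0 := norm_le_zero_iff.1 (by rw [h0]; exact hM x x.2)
    have h2 : f y = 0 := norm_le_zero_iff.1 (by rw [h0]; exact hM y y.2)
    rw [h1, h2, ← h0]
    simp
  · have hg : restr X ⟨f, hf⟩ ∈ ratSet X := Deriv.restr_mem _
    have h1 := h _ (subset_closure (ratSet_smul ((M : ℂ)⁻¹) hg)) (by
      intro z
      rw [ContinuousMap.smul_apply, norm_smul, norm_inv, Complex.norm_real,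
        Real.norm_of_nonneg hM0, inv_mul_le_iff₀ h0, mul_one]
      exact hM z z.2)
    rw [ContinuousMap.smul_apply, ContinuousMap.smul_apply, ← smul_sub, norm_smul, norm_inv,
      Complex.norm_real, Real.norm_of_nonneg hM0, inv_mul_le_iff₀ h0] at h1
    rw [mul_comm]
    exact h1

/-- no bound of the derivative: no derivation -/
theorem noDer_of {X : Set ℂ} (hX : IsCompact X) {y : X} (hy : ∀ K : ℝ, ¬ N2 X K y) :
    NoDerivationAt X y := by
  intro D hD f hf
  exact Deriv.derivation_eq_zero hX hy ⟨hD.add, hD.smul, hD.mul, hD.bound⟩ f hf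

/-- a bound of the derivative: a nonzero derivation -/
theorem exists_der {X : Set ℂ} (hX : IsCompact X) {K : ℝ} {y : X} (hK : N2 X K y) :
    ¬ NoDerivationAt X y := by
  obtain ⟨Ψ, hc, hadd, hsmul, hb, hder⟩ := Pool.Agent.Y801.SC.exists_ext hX y.2 hK
  intro hno
  have hD : IsBoundedPointDerivation X y Ψ := by
    refine ⟨fun f _ g _ => hadd f g, fun c f _ => hsmul c f, ?_, ⟨K, fun f _ M hM => hb f M hM⟩⟩
    have hrat : ∀ f ∈ ratSet X, ∀ g ∈ ratSet X, Ψ (f * g) = f y * Ψ g + g y * Ψ f := by
      intro f hf g hg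
      obtain ⟨F, hF, hFf⟩ := Deriv.exists_QX hf
      obtain ⟨G, hG, hGg⟩ := Deriv.exists_QX hg
      have e1 : restr X ⟨F, hF⟩ = f := ContinuousMap.ext fun z => hFf z
      have e2 : restr X ⟨G, hG⟩ = g := ContinuousMap.ext fun z => hGg z
      have e3 : restr X (⟨F, hF⟩ * ⟨G, hG⟩) = f * g := by
        rw [← e1, ← e2]
        rfl
      rw [← e3, hder, ← e1, ← e2, hder, hder]
      change deriv (F * G) y = F y * deriv G y + G y * deriv F y
      rw [deriv_mul (QX.differentiableAt hF y.2) (QX.differentiableAt hG y.2)]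
      ring
    have : CompactSpace X := isCompact_iff_compactSpace.1 hX
    have hclosed : ∀ f g : C(X, ℂ), f ∈ closure (ratSet X) → g ∈ closure (ratSet X) →
        Ψ (f * g) = f y * Ψ g + g y * Ψ f := by
      have hcl : IsClosed {p : C(X, ℂ) × C(X, ℂ) | Ψ (p.1 * p.2) =
          p.1 y * Ψ p.2 + p.2 y * Ψ p.1} := by
        refine isClosed_eq (hc.comp (continuous_fst.mul continuous_snd)) ?_
        refine Continuous.add (Continuous.mul ?_ (hc.comp continuous_snd))
          (Continuous.mul ?_ (hc.comp continuous_fst))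
        · exact (continuous_eval_const y).comp continuous_fst
        · exact (continuous_eval_const y).comp continuous_snd
      intro f g hf hg
      have hsub : closure (ratSet X ×ˢ ratSet X) ⊆ {p : C(X, ℂ) × C(X, ℂ) | Ψ (p.1 * p.2) =
          p.1 y * Ψ p.2 + p.2 y * Ψ p.1} :=
        closure_minimal (fun p hp => hrat p.1 hp.1 p.2 hp.2) hcl
      rw [closure_prod_eq] at hsub
      exact hsub (show (f, g) ∈ closure (ratSet X) ×ˢ closure (ratSet X) from ⟨hf, hg⟩)
    exact fun f hf g hg => hclosed f g hf hg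
  have h1 := hno Ψ hD (restr X ⟨fun z => z - (y : ℂ), QX.id_sub_mem X y⟩)
    (subset_closure (Deriv.restr_mem _))
  rw [hder] at h1
  have h2 : deriv (fun z : ℂ => z - (y : ℂ)) y = 1 := by
    have h4 : HasDerivAt (fun z : ℂ => z - (y : ℂ)) 1 y := (hasDerivAt_id' _).sub_const _
    exact h4.deriv
  rw [h2] at h1
  exact one_ne_zero h1

/-- Let `X` be compact with empty interior. For the norm of the differences of the evaluations in
the dual of `R(X)`, the set of the points of `X` at which all bounded point derivations on `R(X)`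
are zero is a countable intersection of open sets, is dense, and has uncountably many points, all
nonpeak, in every ball around every nonpeak point. Every Swiss cheese is such a set `X` and has
nonpeak points. -/
theorem result :
    (∀ X : Set ℂ, IsSwissCheese X → IsCompact X ∧ interior X = ∅ ∧ ∃ x : X, ¬ IsPeakPoint X x) ∧
    ∀ X : Set ℂ, IsCompact X → interior X = ∅ →
      (∃ U : ℕ → Set X, (∀ n, NormOpen X (U n)) ∧ (∀ n, NormDense X (U n)) ∧
        ⋂ n, U n = {y : X | NoDerivationAt X y}) ∧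
      NormDense X {y : X | NoDerivationAt X y} ∧
      ∀ x : X, ¬ IsPeakPoint X x → ∀ ε : ℝ, 0 < ε →
        ¬ {y : X | NormLe X ε x y ∧ ¬ IsPeakPoint X y ∧ NoDerivationAt X y}.Countable := by
  refine ⟨?_, ?_⟩
  · intro X hX
    have hcomp : IsCompact X := NoDerivation.IsSwissCheese.isCompact hX
    refine ⟨hcomp, ?_, NoDerivation.exists_nonpeak hX hcomp⟩
    obtain ⟨c, ρ, a, r, -, -, -, -, -, -, h⟩ := hX
    exact h
  · intro X hX hint
    have hdense : NormDense X {y : X | NoDerivationAt X y} := by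
      intro x ε hε
      obtain ⟨y, hyX, -, hcl, hN⟩ := Pool.Agent.Y801.SC.exists_unbounded_gen hX hint x.2 hε
        (S := ∅) countable_empty (fun s hs => absurd hs (notMem_empty s))
      exact ⟨⟨y, hyX⟩, noDer_of hX hN, normLe_of_cl (x := x) (y := ⟨y, hyX⟩) hX hcl⟩
    refine ⟨⟨fun n => {y : X | ¬ N2 X ((n : ℝ) + 1) y}, ?_, ?_, ?_⟩, hdense, ?_⟩
    · -- open
      intro n y hy
      have hy' : ¬ N2 X ((n : ℝ) + 1) y := hy
      unfold N2 at hy'
      push Not at hy'
      obtain ⟨f, hf, M, hM, hlt⟩ := hy'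
      obtain ⟨D, hD0, hD⟩ := Pool.Agent.Y801.SC.exists_diam hX
      have hc : ContinuousWithinAt (fun w => ‖deriv f w‖) X y :=
        (QX.continuousOn_deriv hf y y.2).norm
      have hev : ∀ᶠ w in 𝓝[X] (y : ℂ), ((n : ℝ) + 1) * M < ‖deriv f w‖ :=
        hc.eventually (lt_mem_nhds hlt)
      rw [eventually_nhdsWithin_iff, Metric.eventually_nhds_iff] at hev
      obtain ⟨r, hr, hrw⟩ := hev
      refine ⟨r / (2 * D), by positivity, fun w hw hNw => ?_⟩
      have h1 := Pool.Agent.Y801.SC.dist_le_of_cl (cl_of_normLe hw) (hD y y.2)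
      have h2 : r / (2 * D) * D = r / 2 := by field_simp
      rw [h2, dist_comm] at h1
      have h3 := hrw (show dist (w : ℂ) y < r by linarith) w.2
      have h4 := hNw f hf M hM
      linarith
    · -- dense
      intro n x ε hε
      obtain ⟨y, hyX, -, hcl, hN⟩ := Pool.Agent.Y801.SC.exists_unbounded_gen hX hint x.2 hε
        (S := ∅) countable_empty (fun s hs => absurd hs (notMem_empty s))
      exact ⟨⟨y, hyX⟩, hN _, normLe_of_cl (x := x) (y := ⟨y, hyX⟩) hX hcl⟩
    · -- the intersection
      ext y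
      rw [mem_iInter]
      constructor
      · intro h
        apply noDer_of hX
        intro K hK
        obtain ⟨n, hn⟩ := exists_nat_gt K
        refine h n fun f hf M hM => (hK f hf M hM).trans ?_
        have hM0 : 0 ≤ M := (norm_nonneg _).trans (hM y y.2)
        exact mul_le_mul_of_nonneg_right (by linarith) hM0
      · intro h n hN
        exact exists_der hX hN h
    · -- uncountable
      intro x hx ε hε hcount
      have hε' : 0 < min ε (1 / 2) := by positivity
      obtain ⟨y, hyX, hyS, hcl, hN⟩ := Pool.Agent.Y801.SC.exists_unbounded_gen hX hint x.2 hε'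
        (S := Subtype.val '' {y : X | NormLe X ε x y ∧ ¬ IsPeakPoint X y ∧ NoDerivationAt X y})
        (hcount.image _) (by
          intro s _ y hyX hy η hη
          obtain ⟨δ, hδ, hcl⟩ := hy
          have hnp : ¬ IsPeakPoint X ⟨y, hyX⟩ :=
            NoDerivation.nonpeak_of_close (x₀ := x) (y := ⟨y, hyX⟩) hX hx (hcl.mono x.2 (by
              have := min_le_right ε (1 / 2 : ℝ)
              linarith))
          exact Pool.Agent.Y801.SC.not_isolated (x := ⟨y, hyX⟩) hX hnp hη)
      apply hyS
      refine ⟨⟨y, hyX⟩, ⟨normLe_of_cl (x := x) (y := ⟨y, hyX⟩) hX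
        (hcl.mono x.2 (min_le_left _ _)), ?_, noDer_of hX hN⟩, rfl⟩
      exact NoDerivation.nonpeak_of_close (x₀ := x) (y := ⟨y, hyX⟩) hX hx
        (hcl.mono x.2 (min_le_right _ _))

end Pool.Agent.Results.MP_65d7a7_an.DenseGdelta
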